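import Mathlib
import Pool.Agent.N903.Benford

set_option autoImplicit false

/-!
# Benford's law for the cycles of the 3x+1 map

The significands in base three of the elements of a cycle of `T` with `p` elements, and the significands
in base two of its odd elements, are logarithmically distributed, with an error `C p ^ (38 / 39)` which
is uniform in the cycle and in the interval. The same holds for every piece of every trajectory whose
terms are different from each other.

Method. One step changes `log_3 |x|` by `- log_3 2` up to an integer and an error `O(1 / |x|)`, and from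
one odd term to the next one `log_2 |x|` changes by `log_2 3` up to an integer and an error `O(1 / |x|)`.
The trajectory is cut into blocks of length `q`, where `q` is the denominator of a good rational
approximation (it exists at every scale as the ratio of the logarithms is not a Liouville number). In
the blocks without terms below `q ^ 2` the phases are within `2 / q` of a set of `q` equally spaced
points. The other blocks are few, since a piece of trajectory with different terms contains at most
`C X ^ 0.951` integers of absolute value at most `X` (starting file `H319R2.Sparse`).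
-/

namespace Pool.Agent.Results.MP_edb5be_nt.BenfordLaw

/-- The 3x+1 map on the integers. -/
def T (x : ℤ) : ℤ := if x % 2 = 0 then x / 2 else (3 * x + 1) / 2

/-- `Z` is a cycle of `T`. -/
def IsCycle (Z : Finset ℤ) : Prop :=
  ∃ (x : ℤ) (p : ℕ), 1 ≤ p ∧ T^[p] x = x ∧ Z = (Finset.range p).image fun i => T^[i] x

/-- The set of the first `n` terms of the trajectory of `x`. -/
def terms (x : ℤ) (n : ℕ) : Finset ℤ := (Finset.range n).image fun i => T^[i] x

/-- The odd elements of `S`. -/
def odd (S : Finset ℤ) : Finset ℤ := S.filter fun x => x % 2 = 1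

/-- The number of the `x` in `S` whose significand in base `g` lies in `[g ^ a, g ^ b)`: the fractional
part of the logarithm of `|x|` to the base `g` is in `[a, b)`. -/
noncomputable def count (g : ℕ) (S : Finset ℤ) (a b : ℝ) : ℕ :=
  {x : ℤ | x ∈ S ∧ a ≤ Int.fract (Real.logb g |(x : ℝ)|) ∧ Int.fract (Real.logb g |(x : ℝ)|) < b}.ncard

/-- Benford's law in base `g` for the elements of `S` with error `E`: for all `0 ≤ a ≤ b ≤ 1` the number
of the elements of `S` whose significand lies in `[g ^ a, g ^ b)` differs from `b - a` times the number of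
all elements by at most `E`. -/
def Benford (g : ℕ) (S : Finset ℤ) (E : ℝ) : Prop :=
  ∀ a b : ℝ, 0 ≤ a → a ≤ b → b ≤ 1 → |(count g S a b : ℝ) - (b - a) * S.card| ≤ E

open Pool.Agent.N903.BF in
theorem piece {x : ℤ} {n : ℕ} (hinj : Set.InjOn (fun i => T^[i] x) (Set.Iio n)) {C : ℝ}
    (h3 : ∀ a b : ℝ, 0 ≤ a → a ≤ b → b ≤ 1 →
      |(((Finset.range n).filter fun i => a ≤ Int.fract (Real.logb 3 |((T^[i] x : ℤ) : ℝ)|) ∧
        Int.fract (Real.logb 3 |((T^[i] x : ℤ) : ℝ)|) < b).card : ℝ) - (b - a) * n| ≤ C)
    (h2 : ∀ a b : ℝ, 0 ≤ a → a ≤ b → b ≤ 1 →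
      |(((odds n x).filter fun i => a ≤ Int.fract (Real.logb 2 |((T^[i] x : ℤ) : ℝ)|) ∧
        Int.fract (Real.logb 2 |((T^[i] x : ℤ) : ℝ)|) < b).card : ℝ) - (b - a) * (odds n x).card| ≤ C) :
    Benford 3 (terms x n) C ∧ Benford 2 (odd (terms x n)) C := by
  classical
  have hinj' : Set.InjOn (fun i => T^[i] x) (Finset.range n : Set ℕ) := by
    rw [Finset.coe_range]; exact hinj
  have hcard : (terms x n).card = n := by
    unfold terms
    rw [Finset.card_image_of_injOn hinj', Finset.card_range]
  have himg : odd (terms x n) = (odds n x).image fun i => T^[i] x := by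
    unfold odd terms odds
    rw [Finset.filter_image]
    rfl
  have hcardo : (odd (terms x n)).card = (odds n x).card := by
    rw [himg]
    apply Finset.card_image_of_injOn
    apply hinj'.mono
    exact Finset.coe_subset.2 (Finset.filter_subset _ _)
  constructor
  · intro a b ha hab hb
    have e : count 3 (terms x n) a b =
        ((Finset.range n).filter fun i => a ≤ Int.fract (Real.logb 3 |((T^[i] x : ℤ) : ℝ)|) ∧
        Int.fract (Real.logb 3 |((T^[i] x : ℤ) : ℝ)|) < b).card := by
      unfold count
      rw [show {y : ℤ | y ∈ terms x n ∧ a ≤ Int.fract (Real.logb (3 : ℕ) |(y : ℝ)|) ∧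
          Int.fract (Real.logb (3 : ℕ) |(y : ℝ)|) < b} =
          (((Finset.range n).filter fun i => a ≤ Int.fract (Real.logb 3 |((T^[i] x : ℤ) : ℝ)|) ∧
        Int.fract (Real.logb 3 |((T^[i] x : ℤ) : ℝ)|) < b).image fun i => T^[i] x : Finset ℤ) by
          ext y
          simp only [terms, Finset.mem_image, Finset.mem_range, Set.mem_ofPred_eq, Finset.coe_image,
            Finset.coe_filter, Set.mem_image]
          push_cast
          constructor
          · rintro ⟨⟨i, hi, rfl⟩, h⟩
            exact ⟨i, ⟨hi, h⟩, rfl⟩
          · rintro ⟨i, ⟨hi, h⟩, rfl⟩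
            exact ⟨⟨i, hi, rfl⟩, h⟩, Set.ncard_coe_finset]
      apply Finset.card_image_of_injOn
      apply hinj'.mono
      exact Finset.coe_subset.2 (Finset.filter_subset _ _)
    rw [e, hcard]
    exact h3 a b ha hab hb
  · intro a b ha hab hb
    have e : count 2 (odd (terms x n)) a b =
        ((odds n x).filter fun i => a ≤ Int.fract (Real.logb 2 |((T^[i] x : ℤ) : ℝ)|) ∧
        Int.fract (Real.logb 2 |((T^[i] x : ℤ) : ℝ)|) < b).card := by
      unfold count
      rw [show {y : ℤ | y ∈ odd (terms x n) ∧ a ≤ Int.fract (Real.logb (2 : ℕ) |(y : ℝ)|) ∧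
          Int.fract (Real.logb (2 : ℕ) |(y : ℝ)|) < b} =
          (((odds n x).filter fun i => a ≤ Int.fract (Real.logb 2 |((T^[i] x : ℤ) : ℝ)|) ∧
        Int.fract (Real.logb 2 |((T^[i] x : ℤ) : ℝ)|) < b).image fun i => T^[i] x : Finset ℤ) by
          ext y
          rw [himg]
          simp only [Finset.mem_image, Set.mem_ofPred_eq, Finset.coe_image,
            Finset.coe_filter, Set.mem_image]
          push_cast
          constructor
          · rintro ⟨⟨i, hi, rfl⟩, h⟩
            exact ⟨i, ⟨hi, h⟩, rfl⟩
          · rintro ⟨i, ⟨hi, h⟩, rfl⟩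
            exact ⟨⟨i, hi, rfl⟩, h⟩, Set.ncard_coe_finset]
      apply Finset.card_image_of_injOn
      apply hinj'.mono
      refine (Finset.coe_subset.2 (Finset.filter_subset _ _)).trans ?_
      exact Finset.coe_subset.2 (Finset.filter_subset _ _)
    rw [e, hcardo]
    exact h2 a b ha hab hb

/-- **Benford's law.** There is `C` such that
(1) for every cycle `Z` of the 3x+1 map on the integers (positive or negative, other than `{0}`), with `p`
elements, the elements of `Z` obey Benford's law in base three, and the odd elements of `Z` obey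
Benford's law in base two, with error `C p ^ (38 / 39)`;
(2) for all integers `x ≠ 0` and all `n` such that the first `n` terms of the trajectory of `x` are
different from each other, these terms obey Benford's law in base three, and the odd ones among them
obey Benford's law in base two, with error `C n ^ (38 / 39)`. -/
theorem result : ∃ C : ℝ,
    (∀ Z : Finset ℤ, IsCycle Z → 0 ∉ Z →
      Benford 3 Z (C * (Z.card : ℝ) ^ (38 / 39 : ℝ)) ∧
      Benford 2 (odd Z) (C * (Z.card : ℝ) ^ (38 / 39 : ℝ))) ∧
    (∀ (x : ℤ) (n : ℕ), x ≠ 0 → (∀ i j : ℕ, i < n → j < n → T^[i] x = T^[j] x → i = j) →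
      Benford 3 (terms x n) (C * (n : ℝ) ^ (38 / 39 : ℝ)) ∧
      Benford 2 (odd (terms x n)) (C * (n : ℝ) ^ (38 / 39 : ℝ))) := by
  classical
  obtain ⟨C3, hC3, h3⟩ := Pool.Agent.N903.BF.base_three
  obtain ⟨C2, hC2, h2⟩ := Pool.Agent.N903.BF.base_two
  have main : ∀ (x : ℤ) (n : ℕ), x ≠ 0 → (∀ i j : ℕ, i < n → j < n → T^[i] x = T^[j] x → i = j) →
      Benford 3 (terms x n) (max C3 C2 * (n : ℝ) ^ (38 / 39 : ℝ)) ∧
      Benford 2 (odd (terms x n)) (max C3 C2 * (n : ℝ) ^ (38 / 39 : ℝ)) := by
    intro x n hx hinj
    have hinj' : Set.InjOn (fun i => T^[i] x) (Set.Iio n) := fun i hi j hj h => hinj i j hi hj h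
    have hn : (0 : ℝ) ≤ (n : ℝ) ^ (38 / 39 : ℝ) := by positivity
    apply piece hinj'
    · intro a b ha hab hb
      exact (h3 x n hx hinj' a b ha hab hb).trans (mul_le_mul_of_nonneg_right (le_max_left _ _) hn)
    · intro a b ha hab hb
      exact (h2 x n hx hinj' a b ha hab hb).trans (mul_le_mul_of_nonneg_right (le_max_right _ _) hn)
  refine ⟨max C3 C2, ?_, main⟩
  rintro Z ⟨x, p, hp, hper, rfl⟩ h0
  have hx : x ≠ 0 := by
    rintro rfl
    apply h0
    rw [Finset.mem_image]
    exact ⟨0, Finset.mem_range.2 (by omega), rfl⟩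
  set r := Function.minimalPeriod T x with hr
  have hxp : Function.IsPeriodicPt T p x := hper
  have hr0 : 0 < r := hxp.minimalPeriod_pos hp
  have hinj : Set.InjOn (fun i => T^[i] x) (Set.Iio r) := Function.iterate_injOn_Iio_minimalPeriod
  have hrp : r ≤ p := hxp.minimalPeriod_le hp
  have hZ : ((Finset.range p).image fun i => T^[i] x) = terms x r := by
    unfold terms
    ext y
    simp only [Finset.mem_image, Finset.mem_range]
    constructor
    · rintro ⟨i, _, rfl⟩
      exact ⟨i % r, Nat.mod_lt _ hr0, Function.iterate_mod_minimalPeriod_eq⟩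
    · rintro ⟨i, hi, rfl⟩
      exact ⟨i, by omega, rfl⟩
  have hcard : (terms x r).card = r := by
    unfold terms
    rw [Finset.card_image_of_injOn (by rw [Finset.coe_range]; exact hinj), Finset.card_range]
  rw [hZ, hcard]
  exact main x r hx (fun i j hi hj h => hinj hi hj h)

end Pool.Agent.Results.MP_edb5be_nt.BenfordLaw
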