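import Mathlib
import Pool.Agent.N909.CY.Cyc

set_option autoImplicit false

/-!
# Random Collatz maps have finitely many cycles

A random Collatz map decides for every integer `n`, one after the other, whether `n` goes up to
`⌊(3n+1)/2⌋` or down to `⌊n/2⌋`; we only assume that the conditional probability of going up, given the
earlier decisions, tends to `1/2` almost surely (no independence, no rate).  Almost surely this map has only
finitely many cycles, and all trajectories end in them.

The deterministic input: a cycle of logarithmic length has a bounded minimum, in all maps of this shape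
(a lower bound for `|u log 3 - l log 2|` from the starting library, `Pool.Agent.H440R2.lfl`).
-/

open MeasureTheory Filter
open scoped Topology

namespace Pool.Agent.Results.MP_edb5be_nt.CyclesOfRandomMaps

/-- the Collatz map in which the elements of `S` go up -/
noncomputable def colT (S : Set ℕ) (n : ℕ) : ℕ :=
  open Classical in if n ∈ S then (3 * n + 1) / 2 else n / 2

/-- the elements of cycles of `f` -/
def periodic (f : ℕ → ℕ) : Set ℕ := {x | ∃ l, 1 ≤ l ∧ f^[l] x = x}

open Pool.Agent.R528.RM Pool.Agent.N909.CM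

variable {Ω : Type} {B : ℕ → Set Ω}

lemma colT_eq (ω : Ω) : colT {n | ω ∈ B n} = T B ω := by
  funext n
  unfold colT T
  simp only [Set.mem_ofPred_eq]

/-- **Random Collatz maps have finitely many cycles.**  (1) Let `(ℱ n)` be a filtration and `B n ∈ ℱ n` events
(`n` goes up) with `P(B (n+1) | ℱ n) → 1/2` almost surely.  Then almost surely only finitely many integers
lie in cycles, and every trajectory reaches one of them.  (2) For every `C` there is an `M` such that for every
map `f` with `f n ∈ {⌊(3n+1)/2⌋, ⌊n/2⌋}` for all `n`: if `x` is the least element of a cycle of `f` which closes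
after `l ≤ C log x` steps, then `x ≤ M`. -/
theorem result :
    (∀ {Ω : Type} {m0 : MeasurableSpace Ω} (μ : Measure Ω) [IsProbabilityMeasure μ]
      (ℱ : Filtration ℕ m0) (B : ℕ → Set Ω), (∀ n, MeasurableSet[ℱ n] (B n)) →
      (∀ᵐ ω ∂μ, Tendsto (fun n : ℕ => (μ[(B (n + 1)).indicator (fun _ => (1 : ℝ)) | ℱ n]) ω) atTop (𝓝 (1 / 2))) →
      ∀ᵐ ω ∂μ, (periodic (colT {k | ω ∈ B k})).Finite ∧
        ∀ n : ℕ, ∃ k : ℕ, (colT {k | ω ∈ B k})^[k] n ∈ periodic (colT {k | ω ∈ B k})) ∧
    (∀ C : ℝ, ∃ M : ℕ, ∀ f : ℕ → ℕ, (∀ n, f n = (3 * n + 1) / 2 ∨ f n = n / 2) →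
      ∀ l x : ℕ, 1 ≤ l → f^[l] x = x → (∀ i < l, x ≤ f^[i] x) → (l : ℝ) ≤ C * Real.log x → x ≤ M) := by
  refine ⟨?_, Pool.Agent.N909.CY.no_cycle⟩
  intro Ω m0 μ _ ℱ B hB hd
  filter_upwards [Pool.Agent.N909.CY.cycles (μ := μ) (ℱ := ℱ) (B := B) hB hd] with ω hω
  obtain ⟨hfin, hper⟩ := hω
  rw [colT_eq]
  refine ⟨hper, fun n => ?_⟩
  have : ∃ i j : ℕ, i < j ∧ (T B ω)^[i] n = (T B ω)^[j] n := by
    by_contra hcon
    push Not at hcon
    have hinj : Function.Injective (fun i => (T B ω)^[i] n) := by
      intro i j h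
      rcases lt_trichotomy i j with h1 | h1 | h1
      · exact absurd h (hcon i j h1)
      · exact h1
      · exact absurd h.symm (hcon j i h1)
    exact Set.infinite_range_of_injective hinj (hfin n)
  obtain ⟨i, j, hij, h⟩ := this
  refine ⟨i, j - i, by omega, ?_⟩
  rw [← Function.iterate_add_apply, Nat.sub_add_cancel hij.le]
  exact h.symm

end Pool.Agent.Results.MP_edb5be_nt.CyclesOfRandomMaps
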