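import Mathlib
import Pool.Agent.N903.CycleSupport2

set_option autoImplicit false

/-!
# The primes which divide the elements of a cycle of the 3x+1 map

For every cycle with `p` elements the number of the primes which divide at least one of the elements is
at least a constant times `(log p) ^ 2 / log log p`.

Method: a larger sieve. Take a window of about `log p` consecutive terms. Elements `x` of
the cycle whose windows have the same parities satisfy `T^j x - T^j y = 3^o (x - y) / 2^j`, hence a prime
power which divides the `j`-th terms of both windows divides `x - y`. If the odd terms of the windows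
consist mainly of prime powers below `x ^ (1 / t)` then a Cauchy-Schwarz argument over all prime powers and all
rows bounds the number of primes from below by a multiple of `t log p`; if they contain large prime powers
then a bounded number of rows and `O(t)` prime powers determine `x`, which bounds the number of the `x`
by `exp (C t log log p)`. The choice `t = c log p / log log p` gives the result.
-/

namespace Pool.Agent.Results.MP_edb5be_nt.PrimeSupport

/-- The 3x+1 map on the integers. -/
def T (x : ℤ) : ℤ := if x % 2 = 0 then x / 2 else (3 * x + 1) / 2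

/-- `Z` is a cycle of `T`. -/
def IsCycle (Z : Finset ℤ) : Prop :=
  ∃ (x : ℤ) (p : ℕ), 1 ≤ p ∧ T^[p] x = x ∧ Z = (Finset.range p).image fun i => T^[i] x

/-- The set of the primes which divide at least one element of `Z`. -/
def primes (Z : Finset ℤ) : Finset ℕ := Z.biUnion fun x => x.natAbs.primeFactors

/-- a cycle is parametrized by its minimal period -/
theorem minimal {Z : Finset ℤ} (hZ : IsCycle Z) (h0 : 0 ∉ Z) : ∃ (x : ℤ) (r : ℕ), x ≠ 0 ∧ 0 < r ∧
    T^[r] x = x ∧ Set.InjOn (fun i => T^[i] x) (Set.Iio r) ∧ Z.card = r ∧ ∀ i, T^[i] x ∈ Z := by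
  obtain ⟨x, p, hp, hper, rfl⟩ := hZ
  have hx : x ≠ 0 := by
    rintro rfl
    apply h0
    rw [Finset.mem_image]
    exact ⟨0, Finset.mem_range.2 (by omega), rfl⟩
  set r := Function.minimalPeriod T x with hr
  have hxp : Function.IsPeriodicPt T p x := hper
  have hr0 : 0 < r := hxp.minimalPeriod_pos hp
  have hinj : Set.InjOn (fun i => T^[i] x) (Set.Iio r) := Function.iterate_injOn_Iio_minimalPeriod
  have hrp : r ≤ p := hxp.minimalPeriod_le hp
  have hmem : ∀ i, T^[i] x ∈ (Finset.range p).image fun i => T^[i] x := by
    intro i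
    rw [Finset.mem_image]
    refine ⟨i % r, Finset.mem_range.2 ((Nat.mod_lt _ hr0).trans_le hrp), ?_⟩
    exact Function.iterate_mod_minimalPeriod_eq
  have hZ : ((Finset.range p).image fun i => T^[i] x) = (Finset.range r).image fun i => T^[i] x := by
    ext y
    simp only [Finset.mem_image, Finset.mem_range]
    constructor
    · rintro ⟨i, _, rfl⟩
      exact ⟨i % r, Nat.mod_lt _ hr0, Function.iterate_mod_minimalPeriod_eq⟩
    · rintro ⟨i, hi, rfl⟩
      exact ⟨i, by omega, rfl⟩
  refine ⟨x, r, hx, hr0, Function.isPeriodicPt_minimalPeriod T x, hinj, ?_, hmem⟩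
  rw [hZ, Finset.card_image_of_injOn (by rw [Finset.coe_range]; exact hinj), Finset.card_range]

theorem T_eq : T = Pool.Agent.N903.PS.T 3 1 := by
  funext x
  rfl

/-- comparison of the iterated logarithms -/
theorem log_compare {L : ℝ} (hL : 1.098 ≤ L) : 0 < Real.log L ∧ Real.log (L + 2) ≤ 22 * Real.log L := by
  have h0 : 0 < L := by linarith
  have h1 : 1 - 1 / L ≤ Real.log L := by
    have := Real.one_sub_inv_le_log_of_pos h0
    rwa [one_div]
  have h2 : Real.log (L + 2) = Real.log L + Real.log (1 + 2 / L) := by
    rw [← Real.log_mul h0.ne' (by positivity)]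
    congr 1
    field_simp
  have h3 : Real.log (1 + 2 / L) ≤ 2 / L := by
    have := Real.log_le_sub_one_of_pos (show 0 < 1 + 2 / L by positivity)
    linarith
  have h4 : 1 / L ≤ 21 / 23 := by
    rw [div_le_div_iff₀ h0 (by norm_num)]
    linarith
  have h5 : 2 / L = 2 * (1 / L) := by ring
  constructor
  · linarith
  · rw [h2]; linarith

theorem log3 : 1.098 ≤ Real.log 3 := by
  have h1 := Real.log_two_gt_d9
  have h3 : (84 : ℝ) * Real.log 2 ≤ 53 * Real.log 3 := by
    have : Real.log ((2 : ℝ) ^ 84) ≤ Real.log ((3 : ℝ) ^ 53) :=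
      Real.log_le_log (by positivity) (by norm_num)
    rw [Real.log_pow, Real.log_pow] at this
    exact_mod_cast this
  linarith

/-- **The primes of a cycle.** Let `Z` be a cycle of the 3x+1 map on the nonzero integers
(positive or negative), with `p ≥ 3` elements. Then the number `r` of the primes which divide at least
one element of `Z` satisfies `(log p) ^ 2 ≤ 10 ^ 19 r log log p`. -/
theorem result (Z : Finset ℤ) (hZ : IsCycle Z) (h0 : 0 ∉ Z) (h3 : 3 ≤ Z.card) :
    (Real.log Z.card) ^ 2 ≤ 10 ^ 19 * (primes Z).card * Real.log (Real.log Z.card) := by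
  classical
  obtain ⟨x, r, hx, hr0, hper, hinj, hcard, hmem⟩ := minimal hZ h0
  have key := Pool.Agent.N903.PS.prime_support (a := 3) (b := 1) (by norm_num) (by norm_num)
    (by norm_num) isCoprime_one_right (μ := 2) (by norm_num) hx hr0
    (by rw [← T_eq]; exact hper) (by rw [← T_eq]; exact hinj) (S := primes Z) (by
      intro i l hl
      rw [← T_eq] at hl
      unfold primes
      rw [Finset.mem_biUnion]
      exact ⟨_, hmem i, hl⟩)
  rw [← hcard] at key
  have hp3 : (3 : ℝ) ≤ Z.card := by exact_mod_cast h3
  have hL : 1.098 ≤ Real.log Z.card := log3.trans (Real.log_le_log (by norm_num) hp3)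
  obtain ⟨hc1, hc2⟩ := log_compare hL
  -- at least one prime
  have hr1 : 1 ≤ (primes Z).card := by
    by_contra hcon
    have he : primes Z = ∅ := by
      rw [← Finset.card_eq_zero]; omega
    have hsub : Z ⊆ {1, -1} := by
      intro y hy
      have h1 : y.natAbs.primeFactors ⊆ primes Z :=
        Finset.subset_biUnion_of_mem (fun x : ℤ => x.natAbs.primeFactors) hy
      rw [he, Finset.subset_empty, Nat.primeFactors_eq_empty] at h1
      have h2 : y ≠ 0 := fun h => h0 (h ▸ hy)
      rw [Finset.mem_insert, Finset.mem_singleton]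
      omega
    have := Finset.card_le_card hsub
    have h2 : ({1, -1} : Finset ℤ).card ≤ 2 := Finset.card_le_two
    omega
  have hr1' : (1 : ℝ) ≤ (primes Z).card := by exact_mod_cast hr1
  set R : ℝ := ((primes Z).card : ℝ) with hR
  have e1 : (R + 1) * Real.log (Real.log Z.card + 2) ≤ (2 * R) * (22 * Real.log (Real.log Z.card)) := by
    apply mul_le_mul (by linarith) hc2 _ (by linarith)
    exact Real.log_nonneg (by linarith)
  have e2 : (10 : ℝ) ^ 16 * ((2 : ℕ) : ℝ) ^ 4 * (R + 1) * Real.log (Real.log Z.card + 2) =
      16 * 10 ^ 16 * ((R + 1) * Real.log (Real.log Z.card + 2)) := by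
    push_cast; ring
  rw [e2] at key
  have e3 : 0 ≤ R * Real.log (Real.log Z.card) := mul_nonneg (by linarith) hc1.le
  nlinarith

end Pool.Agent.Results.MP_edb5be_nt.PrimeSupport
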